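import Pool.Agent.Helper53.SL.St

/-!
# MP_9062f4_nt, project SL, module SCH

Parseval for the quotient of a monic real polynomial with all roots in the open unit disc by its
reverse.
-/

set_option autoImplicit false

open Polynomial Filter Topology MeasureTheory Set Metric

noncomputable section

namespace Pool.Agent.Helper90.SL

open Pool.Agent.Helper53.SL

/-- the values of the reflected polynomial on the unit circle -/
lemma refl_eval (p : ℝ[X]) (N : ℕ) (hN : p.natDegree ≤ N) (z : ℂ) (hz : ‖z‖ = 1) :
    aeval z (reflect N p) = z ^ N * (starRingEnd ℂ) (aeval z p) := by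
  have hz0 : z ≠ 0 := by
    rintro rfl
    simp at hz
  have hinv : z⁻¹ ≠ 0 := inv_ne_zero hz0
  let _ : Invertible z⁻¹ := invertibleOfNonzero hinv
  have h := eval₂_reflect_mul_pow (algebraMap ℝ ℂ) (z⁻¹) N p hN
  rw [invOf_eq_inv, inv_inv] at h
  have h1 : z⁻¹ = (starRingEnd ℂ) z := by
    rw [Complex.inv_def, Complex.normSq_eq_norm_sq, hz]
    simp
  have h2 : aeval z⁻¹ p = (starRingEnd ℂ) (aeval z p) := by
    rw [h1, aeval_conj]
  rw [← h2]
  rw [aeval_def, aeval_def, ← h]
  rw [inv_pow, mul_comm (z ^ N), mul_assoc, inv_mul_cancel₀ (pow_ne_zero N hz0), mul_one]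

/-- Parseval's identity for real polynomials -/
lemma pars (p : ℝ[X]) (N : ℕ) (h : p.natDegree < N) :
    ∑ i ∈ Finset.range N, p.coeff i ^ 2 =
      Real.circleAverage (fun z : ℂ => ‖aeval z p‖ ^ 2) 0 1 := by
  have h1 := (p.map (algebraMap ℝ ℂ)).sum_sq_norm_coeff_eq_circleAverage
  have h2 : (fun z : ℂ => ‖(p.map (algebraMap ℝ ℂ)).eval z‖ ^ 2) =
      fun z : ℂ => ‖aeval z p‖ ^ 2 := by
    funext z
    rw [eval_map, aeval_def]
  rw [h2] at h1
  rw [← h1]
  symm
  have h3 : (p.map (algebraMap ℝ ℂ)).support ⊆ Finset.range N := by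
    intro i hi
    rw [Finset.mem_range]
    have h4 := le_natDegree_of_mem_supp i hi
    have h5 : (p.map (algebraMap ℝ ℂ)).natDegree ≤ p.natDegree := natDegree_map_le
    omega
  rw [Finset.sum_subset h3]
  · apply Finset.sum_congr rfl
    intro i _
    rw [coeff_map]
    simp
  · intro i _ hi
    rw [notMem_support_iff.1 hi]
    simp

theorem hSch : StSch := by
  intro R w T G N hR hroot hT hw hE
  have hN : 1 ≤ N := by omega
  -- the reverse polynomial has no zero in the closed unit disc
  have hne : ∀ z : ℂ, ‖z‖ ≤ 1 → aeval z R.reverse ≠ 0 := by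
    intro z hz h0
    rcases eq_or_ne z 0 with rfl | hz0
    · have h1 : aeval (0 : ℂ) R.reverse = 1 := by
        rw [← coeff_zero_eq_aeval_zero', coeff_zero_reverse, hR.leadingCoeff]
        simp
      rw [h1] at h0
      exact one_ne_zero h0
    · have hinv : z⁻¹ ≠ 0 := inv_ne_zero hz0
      let _ : Invertible z⁻¹ := invertibleOfNonzero hinv
      have h := (eval₂_reverse_eq_zero_iff (algebraMap ℝ ℂ) (z⁻¹) R).1
      rw [invOf_eq_inv, inv_inv] at h
      have h1 := hroot z⁻¹ (h h0)
      rw [norm_inv] at h1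
      have h2 : 0 < ‖z‖ := norm_pos_iff.2 hz0
      have h3 : 1 ≤ ‖z‖⁻¹ := (one_le_inv₀ h2).2 hz
      linarith
  -- the quotient
  set h : ℂ → ℂ := fun z => aeval z G / aeval z R.reverse with hh
  have hdiff : DifferentiableOn ℂ h (closedBall 0 1) := by
    intro z hz
    have hz1 : ‖z‖ ≤ 1 := by simpa using hz
    apply DifferentiableAt.differentiableWithinAt
    exact (G.differentiable_aeval z).div (R.reverse.differentiable_aeval z) (hne z hz1)
  set f : ℂ → ℂ := fun z => z * aeval z (reflect (N - 1) T) * h z with hf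
  have hfdiff : DifferentiableOn ℂ f (closedBall 0 1) := by
    apply DifferentiableOn.mul _ hdiff
    apply Differentiable.differentiableOn
    exact differentiable_id.mul (reflect (N - 1) T).differentiable_aeval
  have hfavg : Real.circleAverage f 0 1 = 0 := by
    have h1 : DiffContOnCl ℂ f (ball 0 |1|) := by
      apply DifferentiableOn.diffContOnCl
      rw [abs_one, closure_ball (0 : ℂ) one_ne_zero]
      exact hfdiff
    rw [DiffContOnCl.circleAverage h1]
    simp [hf]
  have hsub : sphere (0 : ℂ) 1 ⊆ closedBall 0 1 := sphere_subset_closedBall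
  have hcf : ContinuousOn f (sphere 0 1) := hfdiff.continuousOn.mono hsub
  have hch : ContinuousOn h (sphere 0 1) := hdiff.continuousOn.mono hsub
  have hif : CircleIntegrable f 0 1 := hcf.circleIntegrable zero_le_one
  have hre : Real.circleAverage (fun z => (f z).re) 0 1 = 0 := by
    have h1 := Complex.reCLM.circleAverage_comp_comm hif
    rw [hfavg] at h1
    simpa [Function.comp_def] using h1
  have hiD : CircleIntegrable (fun z => (f z).re) 0 1 :=
    (Complex.continuous_re.comp_continuousOn hcf).circleIntegrable zero_le_one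
  have hiB : CircleIntegrable (fun z : ℂ => ‖aeval z T‖ ^ 2) 0 1 := by
    apply ContinuousOn.circleIntegrable zero_le_one
    exact ((T.continuous_aeval.norm).pow 2).continuousOn
  have hcC : ContinuousOn (fun z : ℂ => ‖h z‖ ^ 2) (sphere 0 1) := (hch.norm).pow 2
  have hiC : CircleIntegrable (fun z : ℂ => ‖h z‖ ^ 2) 0 1 := hcC.circleIntegrable zero_le_one
  -- the identity on the circle
  have hid : ∀ z : ℂ, ‖z‖ = 1 →
      ‖aeval z w‖ ^ 2 = (‖aeval z T‖ ^ 2 + 2 * (f z).re) + ‖h z‖ ^ 2 := by
    intro z hz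
    have hrs := hne z hz.le
    have e1 : aeval z R.reverse = z ^ R.natDegree * (starRingEnd ℂ) (aeval z R) :=
      refl_eval R R.natDegree le_rfl z hz
    have e2 : ‖aeval z R.reverse‖ = ‖aeval z R‖ := by
      rw [e1, norm_mul, norm_pow, hz, one_pow, one_mul, Complex.norm_conj]
    have e3 : aeval z R * aeval z w = aeval z R.reverse * (aeval z T + z ^ N * h z) := by
      have e4 := congrArg (fun q : ℝ[X] => aeval z q) hE
      simp only [map_mul, map_add, map_pow, aeval_X] at e4
      rw [e4, hh]
      field_simp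
    have e5 : ‖aeval z w‖ = ‖aeval z T + z ^ N * h z‖ := by
      have e6 := congrArg norm e3
      rw [norm_mul, norm_mul, e2] at e6
      have e7 : ‖aeval z R‖ ≠ 0 := by
        rw [← e2]
        exact norm_ne_zero_iff.2 hrs
      exact mul_left_cancel₀ e7 e6
    have e8 : f z = (starRingEnd ℂ) (aeval z T) * (z ^ N * h z) := by
      rw [hf]
      simp only
      rw [refl_eval T (N - 1) (by omega) z hz]
      have e9 : z ^ N = z * z ^ (N - 1) := by
        rw [← pow_succ']
        congr 1
        omega
      rw [e9]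
      ring
    have e10 : ‖z ^ N * h z‖ ^ 2 = ‖h z‖ ^ 2 := by
      rw [norm_mul, norm_pow, hz, one_pow, one_mul]
    rw [e5, e8, ← Complex.normSq_eq_norm_sq, Complex.normSq_add, Complex.normSq_eq_norm_sq,
      Complex.normSq_eq_norm_sq, e10]
    have e11 : (aeval z T * (starRingEnd ℂ) (z ^ N * h z)).re =
        ((starRingEnd ℂ) (aeval z T) * (z ^ N * h z)).re := by
      simp only [Complex.mul_re, Complex.conj_re, Complex.conj_im]
      ring
    rw [e11]
    ring
  have hmain : ∑ i ∈ Finset.range N, w.coeff i ^ 2 =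
      ∑ i ∈ Finset.range N, T.coeff i ^ 2 +
        Real.circleAverage (fun z : ℂ => ‖h z‖ ^ 2) 0 1 := by
    rw [pars w N hw, pars T N hT]
    have h1 : Real.circleAverage (fun z : ℂ => ‖aeval z w‖ ^ 2) 0 1 =
        Real.circleAverage
          (fun z : ℂ => (‖aeval z T‖ ^ 2 + 2 * (f z).re) + ‖h z‖ ^ 2) 0 1 := by
      apply Real.circleAverage_congr_sphere
      intro z hz
      apply hid
      simpa using hz
    have hi2 : CircleIntegrable (fun z => 2 * (f z).re) 0 1 := by
      apply ContinuousOn.circleIntegrable zero_le_one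
      exact continuousOn_const.mul (Complex.continuous_re.comp_continuousOn hcf)
    have h2 : Real.circleAverage (fun z => 2 * (f z).re) 0 1 = 0 := by
      have h3 := Real.circleAverage_fun_smul (a := (2 : ℝ)) (f := fun z => (f z).re) (c := 0)
        (R := 1)
      rw [hre] at h3
      simpa [smul_eq_mul] using h3
    have hiBD : CircleIntegrable (fun z : ℂ => ‖aeval z T‖ ^ 2 + 2 * (f z).re) 0 1 := by
      apply ContinuousOn.circleIntegrable zero_le_one
      exact (((T.continuous_aeval.norm).pow 2).continuousOn).add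
        (continuousOn_const.mul (Complex.continuous_re.comp_continuousOn hcf))
    rw [h1, Real.circleAverage_fun_add hiBD hiC, Real.circleAverage_fun_add hiB hi2, h2, add_zero]
  have hnn : 0 ≤ Real.circleAverage (fun z : ℂ => ‖h z‖ ^ 2) 0 1 :=
    Real.circleAverage_nonneg_of_nonneg (fun z _ => by positivity)
  refine ⟨by linarith, ?_⟩
  intro heq
  have h0 : Real.circleAverage (fun z : ℂ => ‖h z‖ ^ 2) 0 1 = 0 := by linarith
  rw [Real.circleAverage_def] at h0
  have hpi : (0 : ℝ) < 2 * Real.pi := by positivity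
  have h1 : ∫ t in (0 : ℝ)..2 * Real.pi, ‖h (circleMap 0 1 t)‖ ^ 2 = 0 := by
    rcases smul_eq_zero.1 h0 with h2 | h2
    · exact absurd h2 (inv_ne_zero hpi.ne')
    · exact h2
  have hct : Continuous (fun t : ℝ => ‖h (circleMap 0 1 t)‖ ^ 2) := by
    apply hcC.comp_continuous (continuous_circleMap 0 1)
    intro t
    exact circleMap_mem_sphere 0 zero_le_one t
  have hz : ∀ t ∈ Icc (0 : ℝ) (2 * Real.pi), h (circleMap 0 1 t) = 0 := by
    intro t ht
    by_contra hcon
    have h3 : 0 < ‖h (circleMap 0 1 t)‖ ^ 2 := by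
      have := norm_pos_iff.2 hcon
      positivity
    have h4 := intervalIntegral.integral_pos hpi hct.continuousOn
      (fun x _ => by positivity) ⟨t, ht, h3⟩
    linarith
  -- so G vanishes on the circle
  have hGz : ∀ t ∈ Icc (0 : ℝ) (2 * Real.pi), aeval (circleMap 0 1 t) G = 0 := by
    intro t ht
    have h3 := hz t ht
    rw [hh] at h3
    simp only [div_eq_zero_iff] at h3
    rcases h3 with h3 | h3
    · exact h3
    · exact absurd h3 (hne _ (by simp))
  by_contra hG
  have hG2 : G.map (algebraMap ℝ ℂ) ≠ 0 :=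
    (Polynomial.map_ne_zero_iff (algebraMap ℝ ℂ).injective).2 hG
  have hinf : {x : ℂ | (G.map (algebraMap ℝ ℂ)).IsRoot x}.Infinite := by
    have hinj : InjOn (circleMap 0 1) (Icc (0 : ℝ) 1) := by
      intro s hs t ht hst
      apply eq_of_circleMap_eq (one_ne_zero : (1 : ℝ) ≠ 0) _ hst
      have hp := Real.pi_gt_three
      rw [abs_lt]
      constructor <;> linarith [hs.1, hs.2, ht.1, ht.2]
    have hI : ((circleMap 0 1) '' (Icc (0 : ℝ) 1)).Infinite :=
      (Icc_infinite (by norm_num)).image hinj
    apply hI.mono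
    rintro z ⟨t, ht, rfl⟩
    have h5 : aeval (circleMap 0 1 t) G = 0 := by
      apply hGz t
      refine ⟨ht.1, ht.2.trans ?_⟩
      linarith [Real.pi_gt_three]
    show (G.map (algebraMap ℝ ℂ)).eval _ = 0
    rw [eval_map, ← aeval_def]
    exact h5
  exact hG2 (Polynomial.eq_zero_of_infinite_isRoot _ hinf)

end Pool.Agent.Helper90.SL

end
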