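import Mathlib
import Pool.Agent.Helper65.SL.Base

/-!
# Project SL (MP_1eb6eb), module TRS: change of charts
-/

set_option maxSynthPendingDepth 3
set_option linter.unusedSectionVars false
set_option linter.deprecated false
set_option linter.unusedVariables false

namespace Pool.Agent.Helper90.SL

open Filter Topology
open scoped ContDiff Manifold
open Pool.Agent.Helper23.Ric
open Pool.Agent.Helper65.SL

section manifold

variable {E₁ E₂ : Type*} [NormedAddCommGroup E₁] [NormedSpace ℝ E₁] [FiniteDimensional ℝ E₁]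
  [NormedAddCommGroup E₂] [NormedSpace ℝ E₂] [FiniteDimensional ℝ E₂]
  {H₁ H₂ : Type*} [TopologicalSpace H₁] [TopologicalSpace H₂]
  {I : ModelWithCorners ℝ E₁ H₁} {J : ModelWithCorners ℝ E₂ H₂} [I.Boundaryless] [J.Boundaryless]
  {M N : Type*} [TopologicalSpace M] [TopologicalSpace N]
  [ChartedSpace H₁ M] [IsManifold I ∞ M] [ChartedSpace H₂ N] [IsManifold J ∞ N]

theorem trs (h : RMetric J N) (y₁ y : N) (hy : y ∈ (chartAt H₂ y₁).source) :
    ∃ ψ : E₂ → E₂, ContDiffAt ℝ 3 ψ (extChartAt J y y) ∧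
      ψ (extChartAt J y y) = extChartAt J y₁ y ∧
      Function.Injective (fderiv ℝ ψ (extChartAt J y y)) ∧
      (∀ᶠ z in 𝓝 (extChartAt J y y), (extChartAt J y).symm z = (extChartAt J y₁).symm (ψ z)) ∧
      inChart J h.form y =ᶠ[𝓝 (extChartAt J y y)] pull ψ (inChart J h.form y₁) := by
  have hy' : y ∈ (extChartAt J y₁).source := by rwa [extChartAt_source]
  have hinv : (extChartAt J y).symm (extChartAt J y y) = y := extChartAt_to_inv y
  obtain ⟨ψ, hψ⟩ : ∃ ψ : E₂ → E₂, ψ = (extChartAt J y₁) ∘ (extChartAt J y).symm := ⟨_, rfl⟩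
  have hψz : ∀ z, ψ z = extChartAt J y₁ ((extChartAt J y).symm z) := fun z => by rw [hψ]; rfl
  have hψ₀ : ψ (extChartAt J y y) = extChartAt J y₁ y := by rw [hψz, hinv]
  have hmem : extChartAt J y y ∈ ((extChartAt J y).symm ≫ extChartAt J y₁).source := by
    rw [PartialEquiv.trans_source, PartialEquiv.symm_source]
    refine ⟨mem_extChartAt_target y, ?_⟩
    show (extChartAt J y).symm (extChartAt J y y) ∈ (extChartAt J y₁).source
    rw [hinv]
    exact hy'
  have hC : ContDiffAt ℝ ∞ ψ (extChartAt J y y) := by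
    have h1 := contDiffWithinAt_ext_coord_change (n := ∞) (I := J) y₁ y hmem
    rw [J.range_eq_univ, contDiffWithinAt_univ] at h1
    rw [hψ]
    exact h1
  have hC3 : ContDiffAt ℝ 3 ψ (extChartAt J y y) := hC.of_le (by norm_cast)
  -- near the centre the two charts agree
  have hev : ∀ᶠ z in 𝓝 (extChartAt J y y),
      (extChartAt J y).symm z ∈ (extChartAt J y₁).source := by
    have h1 : (extChartAt J y₁).source ∈ 𝓝 ((extChartAt J y).symm (extChartAt J y y)) := by
      rw [hinv]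
      exact (isOpen_extChartAt_source y₁).mem_nhds hy'
    exact (continuousAt_extChartAt_symm (I := J) y).eventually h1
  have hev2 : ∀ᶠ z in 𝓝 (extChartAt J y y),
      (extChartAt J y).symm z = (extChartAt J y₁).symm (ψ z) := by
    filter_upwards [hev] with z hz
    rw [hψz, (extChartAt J y₁).left_inv hz]
  have hdiff : ∀ᶠ z in 𝓝 (extChartAt J y y), DifferentiableAt ℝ ψ z := by
    filter_upwards [hC3.eventually (by norm_num)] with z hz
    exact hz.differentiableAt (by norm_num)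
  have hd : ∀ᶠ z in 𝓝 (extChartAt J y y),
      dsymm J y z = (dsymm J y₁ (ψ z)).comp (fderiv ℝ ψ z) := by
    filter_upwards [hev, hev2.eventually_nhds, hdiff] with z hz1 hz2 hz3
    have htar : ψ z ∈ (extChartAt J y₁).target := by
      rw [hψz]
      exact (extChartAt J y₁).map_source hz1
    have h1 : mfderiv 𝓘(ℝ, E₂) J (extChartAt J y).symm z =
        mfderiv 𝓘(ℝ, E₂) J ((extChartAt J y₁).symm ∘ ψ) z := by
      apply Filter.EventuallyEq.mfderiv_eq
      exact hz2
    have h2 : mfderiv 𝓘(ℝ, E₂) J ((extChartAt J y₁).symm ∘ ψ) z =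
        (mfderiv 𝓘(ℝ, E₂) J (extChartAt J y₁).symm (ψ z)).comp (mfderiv 𝓘(ℝ, E₂) 𝓘(ℝ, E₂) ψ z) :=
      mfderiv_comp z (mdiff_symm htar) hz3.mdifferentiableAt
    have h3 : mfderiv 𝓘(ℝ, E₂) 𝓘(ℝ, E₂) ψ z = fderiv ℝ ψ z := mfderiv_eq_fderiv
    rw [h3] at h2
    exact h1.trans h2
  refine ⟨ψ, hC3, hψ₀, ?_, hev2, ?_⟩
  · have h0 := hd.self_of_nhds
    rw [dsymm_self] at h0
    intro v w hvw
    have h1 := congrArg (fun L : E₂ →L[ℝ] E₂ => L v) h0
    have h2 := congrArg (fun L : E₂ →L[ℝ] E₂ => L w) h0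
    simp only [ContinuousLinearMap.comp_apply, ContinuousLinearMap.id_apply] at h1 h2
    rw [h1, h2, hvw]
  · filter_upwards [hev2, hd] with z hz1 hz2
    ext v w
    rw [inChart_apply, hz1, hz2]
    rfl

end manifold

end Pool.Agent.Helper90.SL
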